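import Pool.Agent.BEH.StmtsS
import Pool.Agent.Helper6_BEH.DENa

/-!
# DEC of the squad BEH (problem MP_be01ff_an)

The spectral part of DED (after Helper69_BEH/DED.lean).
-/

set_option autoImplicit false

namespace Pool.Agent.BEH.H66

open Set Filter Topology MeasureTheory
open scoped InnerProductSpace ENNReal
open Pool.Agent.BE01 Pool.Agent.BEL Pool.Agent.BEH

noncomputable section

/-- DEC. -/
theorem dec (mmx : MmxStmt) (red : RedStmt) (syd : SydStmt) (geo : GeoStmt)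
    (upp : UppStmt) (low : LowStmt) (smd : SmdStmt) : DecStmt := by
  intro d hd2 Ω ι b e om M δ hok hconn hδ
  have hd0 : 0 < d := by omega
  have hΩ : Dom Ω := hok.dom
  have hspec := hok.spec
  have hpos := hspec.pos
  obtain ⟨N, hN1, hNom⟩ : ∃ N : ℕ, 0 < N ∧ (10 + (M : ℝ)) * om 0 < om N := by
    have h1 := hspec.top.eventually_gt_atTop ((10 + (M : ℝ)) * om 0)
    obtain ⟨N, hN, hN'⟩ := (h1.and (eventually_gt_atTop 0)).exists
    exact ⟨N, hN', hN⟩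
  have hom0 := hpos 0
  have hM0 : (0 : ℝ) ≤ M := Nat.cast_nonneg M
  have hNN : 100 * om 0 ^ 2 ≤ om N ^ 2 := by
    have h1 : 10 * om 0 ≤ om N := by nlinarith
    nlinarith
  obtain ⟨B, f, hB, hBm, hfb, hf0⟩ := red d Ω ι b e om hd0 hok N
  have horth : ∀ i k : Fin N, ∫ y in Ω, f i y * f k y = if i = k then 1 else 0 := by
    intro i k
    have h1 : ∫ y in Ω, f i y * f k y = ⟪b i, b k⟫_ℝ := by
      rw [L2.inner_def]
      refine integral_congr_ae ?_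
      filter_upwards [hfb i, hfb k] with y h2 h3
      rw [h2, h3]
      simp only [RCLike.inner_apply, conj_trivial]
      ring
    rw [h1, orthonormal_iff_ite.mp b.orthonormal]
    by_cases h : i = k
    · rw [if_pos h, if_pos (by rw [h])]
    · rw [if_neg h, if_neg (fun h' => h (Fin.ext h'))]
  obtain ⟨J, x, w, R, D, hR, hD, hJR, hsys⟩ := syd d Ω N B δ f hd2 hΩ hBm horth hδ
  obtain ⟨κ₀, hκ₀, hupp⟩ := upp d Ω ι b e om N B f J w hok hBm hfb
  obtain ⟨κ₁, ε₁, hκ₁, hε₁, hlow⟩ := low d Ω ι b e om N B f J w D hok hN1 hNN hBm hfb hD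
  obtain ⟨ε₀, hε₀, hsys'⟩ := hsys (min κ₀ κ₁) (lt_min hκ₀ hκ₁)
  obtain ⟨ε₂, hε₂, hgap⟩ := H6.gapM hpos hspec.mono hspec.top M
  -- choice of ε
  obtain ⟨ε, hε⟩ : ∃ ε : ℝ, ε = min (min (1 / 2) (ε₀ / 2)) (min (ε₁ / 2) ε₂) := ⟨_, rfl⟩
  have hε0 : 0 < ε := by
    rw [hε]
    exact lt_min (lt_min (by norm_num) (by linarith)) (lt_min (by linarith) hε₂)
  have e1 : ε ≤ 1 / 2 := by
    rw [hε]
    exact (min_le_left _ _).trans (min_le_left _ _)
  have e2 : ε ≤ ε₀ / 2 := by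
    rw [hε]
    exact (min_le_left _ _).trans (min_le_right _ _)
  have e3 : ε ≤ ε₁ / 2 := by
    rw [hε]
    exact (min_le_right _ _).trans (min_le_left _ _)
  have e4 : ε ≤ ε₂ := by
    rw [hε]
    exact (min_le_right _ _).trans (min_le_right _ _)
  obtain ⟨r, η, ψ, g, h, hS⟩ := hsys' ε hε0 (by linarith)
  obtain ⟨hopen, hcon'⟩ := geo d Ω J x R r hd2 hΩ.1 hconn hS.r_pos hS.sub hS.dis
  have hsub : Hl Ω x r ⊆ Ω := fun _ hy => hy.1
  have hΩ' : Dom (Hl Ω x r) := ⟨hopen, hΩ.2.1.subset hsub, hcon'.nonempty⟩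
  refine ⟨J, x, r, fun j => ⟨(hS.r_pos j).1, ?_⟩, fun i j hij => ?_, ?_, hcon', hΩ', ?_⟩
  · exact (Metric.closedBall_subset_closedBall (hS.r_pos j).2.le).trans (hS.sub j)
  · exact (hS.dis i j hij).mono (Metric.closedBall_subset_closedBall (hS.r_pos i).2.le)
      (Metric.closedBall_subset_closedBall (hS.r_pos j).2.le)
  · refine lt_of_le_of_lt ?_ hJR
    calc ∑ j, r j ≤ ∑ _j : Fin J, R := Finset.sum_le_sum fun j _ => (hS.r_pos j).2.le
      _ = J * R := by simp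
  intro ι' b' e' om' hok'
  have hpos' := hok'.spec.pos
  have hU : ∀ m, m < N → om' m ^ 2 ≤ om m ^ 2 + 3 * ε :=
    hupp x R D (min κ₀ κ₁) ε r η ψ g h (lt_min hκ₀ hκ₁) (min_le_left _ _) hε0 (by linarith) hS
      ι' b' e' om' hok'
  have hU0 := hU 0 hN1
  have hL : om 0 ^ 2 + 2 / 5 * ε ≤ om' 0 ^ 2 :=
    hlow x R (min κ₀ κ₁) ε r η ψ g h (lt_min hκ₀ hκ₁) (min_le_right _ _) hε0 (by linarith) hS
      ι' b' e' om' hok' hU0
  have hsimple := smd d (Hl Ω x r) ι' b' e' om' hd2 hok' hcon'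
  refine ⟨hsimple, by linarith, ?_⟩
  intro n _ hn3 hnM k hk
  have hn3' : (3 : ℝ) ≤ n := by exact_mod_cast hn3
  have hnM' : (n : ℝ) ≤ M := by exact_mod_cast hnM
  have hn9 : (9 : ℝ) ≤ (n : ℝ) ^ 2 := by nlinarith
  rcases hgap n hnM k with h1 | h1
  · have hkN : k < N := by
      by_contra hge
      have h2 : om N ≤ om k := hspec.mono (not_lt.mp hge)
      have h3 : (n : ℝ) * om 0 < om k := by nlinarith
      have h4 : ((n : ℝ) * om 0) ^ 2 < om k ^ 2 :=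
        pow_lt_pow_left₀ h3 (by positivity) (by norm_num)
      rw [mul_pow] at h4
      linarith
    have h5 := hU k hkN
    have h6 : (n : ℝ) ^ 2 * (om 0 ^ 2 + 2 / 5 * ε) ≤ (n : ℝ) ^ 2 * om' 0 ^ 2 :=
      mul_le_mul_of_nonneg_left hL (by positivity)
    have h7 : 9 * (2 / 5 * ε) ≤ (n : ℝ) ^ 2 * (2 / 5 * ε) :=
      mul_le_mul_of_nonneg_right hn9 (by positivity)
    nlinarith
  · have h2 : om k ^ 2 ≤ om' k ^ 2 :=
      pow_le_pow_left₀ (hpos k).le (mmx d Ω (Hl Ω x r) ι b e om ι' b' e' om' hok hok' hsub k) 2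
    have h3 : (n : ℝ) ^ 2 * om' 0 ^ 2 ≤ (n : ℝ) ^ 2 * (om 0 ^ 2 + 3 * ε₂) :=
      mul_le_mul_of_nonneg_left (by linarith) (by positivity)
    linarith

end

end Pool.Agent.BEH.H66
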